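import Mathlib
import Pool.Agent.H934.Defs
import Pool.Agent.H934.K.Defs
import Pool.Agent.H934.K.Twist
import Pool.Agent.H934.K.Biell

set_option autoImplicit false

open CategoryTheory CategoryTheory.Limits CategoryTheory.Pretriangulated

namespace Pool.Agent.Results.MP_21b43d_ag.BiellipticGeometric

universe w₃ w₂ w₁ w v u

open Pool.Agent.H934 Pool.Agent.H934.K

/-- **All stability conditions on a bielliptic surface are geometric.** Let `D` be the data
attached to a bielliptic surface `S` (`T = D^b(S)`, the group `G = Pic⁰(S) × Aut⁰(S)` acting on it,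
the skyscraper sheaves, and the structure sheaves of the fibres of the Albanese morphism, with the
elementary facts on them listed in `BiellipticData`). Let `σ` be a stability condition on `T` which is
invariant under `G`; by a theorem of Polishchuk this holds for all stability conditions. Then all
skyscraper sheaves are `σ`-stable of the same phase, that is, `σ` is geometric.

The Albanese morphism of `S` is an elliptic fibration, so it is not finite. -/
theorem result {𝕜 : Type w} [Field 𝕜] {T : Type u} [Category.{v} T] [Preadditive T]
    [HasZeroObject T] [HasShift T ℤ] [∀ n : ℤ, (shiftFunctor T n).Additive] [Pretriangulated T]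
    [IsTriangulated T] [Linear 𝕜 T] [∀ n : ℤ, (shiftFunctor T n).Linear 𝕜]
    (𝒮 : K.SerreFunctor 𝕜 T) (G : Type w₁) [Group G] (X : Type w₂) [MulAction G X]
    (B : Type w₃) (D : BiellipticData 𝒮 G X B) (σ : K.StabCond 𝕜 T)
    (hσ : ∀ (g : G) (φ : ℝ) (E : T), σ.P φ E ↔ σ.P φ ((D.α.Φ g).functor.obj E)) :
    GeometricFor D.O σ.toSlicing :=
  geometric_of_invariant D σ hσ

end Pool.Agent.Results.MP_21b43d_ag.BiellipticGeometric
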